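import Pool.Agent.Y237.TD.Final

/-!
# The extension theorem of Dugundji, and the characterization of the metrizable t-dyadic spaces
by t-extendiality
-/

set_option autoImplicit false

open Set Topology Filter

universe u v

namespace Pool.Agent.Y237.TD

open Pool.Agent.H69R3

/-- The subspace `A` is l-embedded in `X`: there is a continuous linear extender
`C_p(A) → C_p(X)`. -/
def LEmbedded {X : Type*} [TopologicalSpace X] (A : Set X) : Prop :=
  ∃ φ : Cp A → Cp X, Continuous φ ∧ (∀ (f : Cp A) (a : A), (φ f).1 a = f.1 a) ∧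
    ∀ (f g h : Cp A) (c : ℝ), (∀ a, h.1 a = f.1 a + c * g.1 a) →
      ∀ x, (φ h).1 x = (φ f).1 x + c * (φ g).1 x

/-- `X` is l-extendial: each closed subspace of `X` is l-embedded in `X`. -/
def LExtendial (X : Type*) [TopologicalSpace X] : Prop :=
  ∀ A : Set X, IsClosed A → LEmbedded A

/-- Dugundji: the closed subspaces of a metrizable space are l-embedded -/
theorem dugundji {X : Type*} [TopologicalSpace X] [TopologicalSpace.MetrizableSpace X]
    {A : Set X} (hA : IsClosed A) : LEmbedded A := by
  classical
  let := TopologicalSpace.metrizableSpaceMetric X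
  rcases A.eq_empty_or_nonempty with rfl | hne
  · exact ⟨fun _ => ⟨fun _ => 0, continuous_const⟩, continuous_const,
      fun f a => absurd a.2 (Set.notMem_empty _), fun _ _ _ _ _ _ => by simp⟩
  let Y := {x : X // x ∉ A}
  have hpos : ∀ x : Y, 0 < Metric.infDist (x : X) A :=
    fun x => (hA.notMem_iff_infDist_pos hne).1 x.2
  have hpt : ∀ x : Y, ∃ a : A, dist (x : X) a < 2 * Metric.infDist (x : X) A := by
    intro x
    obtain ⟨a, ha, hd⟩ := (Metric.infDist_lt_iff hne).1
      (show Metric.infDist (x : X) A < 2 * Metric.infDist (x : X) A by linarith [hpos x])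
    exact ⟨⟨a, ha⟩, hd⟩
  choose pt hpt using hpt
  let U : Y → Set Y := fun i => Metric.ball i (Metric.infDist (i : X) A / 4)
  obtain ⟨p, hp⟩ := PartitionOfUnity.exists_isSubordinate (X := Y) (s := univ) isClosed_univ U
    (fun i => Metric.isOpen_ball)
    (fun x _ => mem_iUnion.2 ⟨x, Metric.mem_ball_self (by have := hpos x; linarith)⟩)
  let fs : Y → Finset Y := fun x => (p.locallyFinite.point_finite x).toFinset
  have hfs : ∀ (x : Y) (f : Cp A), ∑ i ∈ fs x, p i x * f.1 (pt i) =
      ∑ᶠ i, p i x • f.1 (pt i) := by
    intro x f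
    rw [finsum_eq_sum_of_support_subset (s := fs x)]
    · rfl
    · intro i hi
      have h1 : p i x ≠ 0 := by
        intro h0
        apply hi
        show p i x • f.1 (pt i) = 0
        rw [h0, zero_smul]
      exact Finset.mem_coe.2 ((p.locallyFinite.point_finite x).mem_toFinset.2 h1)
  let E : Cp A → X → ℝ := fun f x =>
    if h : x ∈ A then f.1 ⟨x, h⟩ else ∑ i ∈ fs ⟨x, h⟩, p i ⟨x, h⟩ * f.1 (pt i)
  have hE1 : ∀ (f : Cp A) (x : X) (h : x ∈ A), E f x = f.1 ⟨x, h⟩ := fun f x h => dif_pos h
  have hE2 : ∀ (f : Cp A) (x : X) (h : x ∉ A), E f x =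
      ∑ i ∈ fs ⟨x, h⟩, p i ⟨x, h⟩ * f.1 (pt i) := fun f x h => dif_neg h
  have hEc : ∀ f : Cp A, Continuous (E f) := by
    intro f
    rw [continuous_iff_continuousAt]
    intro x
    by_cases hx : x ∈ A
    · rw [Metric.continuousAt_iff]
      intro ε hε
      obtain ⟨δ, hδ, hδf⟩ := Metric.continuousAt_iff.1 (f.2.continuousAt (x := ⟨x, hx⟩)) ε hε
      refine ⟨δ / 4, by linarith, fun {y} hy => ?_⟩
      rw [hE1 f x hx]
      by_cases hyA : y ∈ A
      · rw [hE1 f y hyA]
        refine hδf ?_
        show dist y x < δ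
        linarith
      · rw [hE2 f y hyA, hfs]
        have key := p.finsum_smul_mem_convex (x := ⟨y, hyA⟩) (mem_univ _)
          (g := fun i _ => f.1 (pt i)) (t := Metric.ball (f.1 ⟨x, hx⟩) ε) (fun i hi => ?_)
          (convex_ball _ _)
        · exact key
        · have h1 : (⟨y, hyA⟩ : Y) ∈ U i := hp i (subset_closure hi)
          have h2 : dist y (i : X) < Metric.infDist (i : X) A / 4 := Metric.mem_ball.1 h1
          have h3 : Metric.infDist (i : X) A ≤ Metric.infDist y A + dist (i : X) y :=
            Metric.infDist_le_infDist_add_dist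
          have h4 : Metric.infDist y A ≤ dist y x := Metric.infDist_le_dist_of_mem hx
          have h5 := hpt i
          have h6 : dist (pt i : X) x ≤ dist (pt i : X) (i : X) + dist (i : X) y + dist y x :=
            dist_triangle4 _ _ _ _
          rw [dist_comm (i : X) y] at h3 h6
          rw [dist_comm (pt i : X) (i : X)] at h6
          refine hδf ?_
          show dist (pt i : X) x < δ
          linarith
    · have hopen : IsOpenEmbedding (Subtype.val : Y → X) :=
        hA.isOpen_compl.isOpenEmbedding_subtypeVal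
      have h1 := hopen.continuousAt_iff (g := E f) (x := (⟨x, hx⟩ : Y))
      refine h1.1 ?_
      have h2 : E f ∘ (Subtype.val : Y → X) = fun y : Y => ∑ᶠ i, p i y • f.1 (pt i) := by
        funext y
        show E f y = _
        rw [hE2 f y y.2, hfs]
      rw [h2]
      exact (p.continuous_finsum_smul (g := fun i _ => f.1 (pt i))
        fun i x _ => continuousAt_const).continuousAt
  refine ⟨fun f => ⟨E f, hEc f⟩, ?_, fun f a => hE1 f a a.2, ?_⟩
  · refine Continuous.subtype_mk (continuous_pi fun x => ?_) _
    by_cases hx : x ∈ A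
    · simp_rw [hE1 _ x hx]
      exact (continuous_apply (⟨x, hx⟩ : A)).comp continuous_subtype_val
    · simp_rw [hE2 _ x hx]
      refine continuous_finsetSum _ fun i _ => continuous_const.mul ?_
      exact (continuous_apply (pt i)).comp continuous_subtype_val
  · intro f g h c hfg x
    show E h x = E f x + c * E g x
    by_cases hx : x ∈ A
    · rw [hE1 _ x hx, hE1 _ x hx, hE1 _ x hx, hfg]
    · rw [hE2 _ x hx, hE2 _ x hx, hE2 _ x hx, Finset.mul_sum, ← Finset.sum_add_distrib]
      refine Finset.sum_congr rfl fun i _ => ?_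
      rw [hfg]
      ring

/-- closed subspaces of t-extendial spaces are t-extendial -/
theorem extendial_closed {X : Type*} [TopologicalSpace X] (h : TExtendial X) {B : Set X}
    (hB : IsClosed B) : TExtendial B := by
  intro A hA
  obtain ⟨φ, hφ, hφe⟩ := h ((↑) '' A : Set X) (hB.isClosedEmbedding_subtypeVal.isClosedMap _ hA)
  have hmem : ∀ x : ((↑) '' A : Set X), ∃ hx : (x : X) ∈ B, (⟨x, hx⟩ : B) ∈ A := by
    rintro ⟨_, b, hb, rfl⟩
    exact ⟨b.2, hb⟩
  let j : ((↑) '' A : Set X) → A := fun x => ⟨⟨x, (hmem x).1⟩, (hmem x).2⟩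
  have hj : Continuous j :=
    Continuous.subtype_mk (Continuous.subtype_mk continuous_subtype_val _) _
  let pb : Cp A → Cp ((↑) '' A : Set X) := fun f => ⟨fun x => f.1 (j x), f.2.comp hj⟩
  have hpb : Continuous pb := by
    refine Continuous.subtype_mk (continuous_pi fun a => ?_) _
    exact (continuous_apply (j a)).comp continuous_subtype_val
  refine ⟨fun f => ⟨fun b => (φ (pb f)).1 b, (φ (pb f)).2.comp continuous_subtype_val⟩, ?_, ?_⟩
  · refine Continuous.subtype_mk (continuous_pi fun b => ?_) _
    exact (continuous_apply (b : X)).comp (continuous_subtype_val.comp (hφ.comp hpb))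
  · intro f a
    have := hφe (pb f) ⟨(a : B), a, a.2, rfl⟩
    exact this

/-- the cube `{0,1}^I`, `I` uncountable, has a subset which is `ω`-closed but not closed -/
theorem cube_not_OT {I : Type u} [Uncountable I] : ¬ OT (I → Bool) := by
  classical
  intro h
  have hcl := h {d : I → Bool | {i | d i = true}.Countable} (by
    intro C hC hCc d hd
    have h2 : (⋃ c ∈ C, {i | c i = true}).Countable := hCc.biUnion fun c hc => hC hc
    have h3 : closure C ⊆ {d : I → Bool | ∀ i ∉ ⋃ c ∈ C, {i | c i = true}, d i = false} := by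
      refine closure_minimal (fun c hc i hi => ?_) ?_
      · by_contra hne
        apply hi
        simp only [mem_iUnion]
        exact ⟨c, hc, by simpa using hne⟩
      · simp only [ofPred_forall]
        exact isClosed_iInter fun i => isClosed_iInter fun _ =>
          isClosed_eq (continuous_apply i) continuous_const
    refine h2.mono fun i hi => ?_
    by_contra hne
    have h4 := h3 hd i hne
    have h5 : d i = true := hi
    rw [h4] at h5
    exact absurd h5 (by decide))
  have h1 : (fun _ => true : I → Bool) ∈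
      closure {d : I → Bool | {i | d i = true}.Countable} := by
    rw [mem_closure_iff]
    intro U hU hm
    obtain ⟨G, hG⟩ := exists_cyl hU hm
    refine ⟨fun i => decide (i ∈ G), hG _ fun j hj => by simp [hj], ?_⟩
    refine G.countable_toSet.mono fun i hi => ?_
    simpa using hi
  rw [hcl.closure_eq] at h1
  have h2 : (univ : Set I).Countable := by
    refine Set.Countable.mono ?_ h1
    intro i _
    rfl
  exact Set.not_countable_univ h2

/-- a space with a Cantor cube of uncountable weight has a closed separable subspace which is not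
t-extendial -/
theorem not_cube_of_extendial {X : Type u} [TopologicalSpace X] [T2Space X]
    (h : ∀ B : Set X, IsClosed B → TopologicalSpace.SeparableSpace B → TExtendial B) :
    ¬ HasCube X := by
  rintro ⟨I, g, hI, hg⟩
  have hcard : Cardinal.aleph0 < Cardinal.mk I := by
    rw [hI]; exact Cardinal.aleph0_lt_aleph_one
  have hunc : Uncountable I := Cardinal.aleph0_lt_mk_iff.1 hcard
  have h4 : Cardinal.lift.{0} (Cardinal.mk I) ≤ Cardinal.lift.{u} (Cardinal.mk (ℕ → Bool)) := by
    rw [hI]
    simpa using Cardinal.aleph_one_le_continuum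
  obtain ⟨i⟩ := Cardinal.lift_mk_le'.1 h4
  have hsep : ∃ Q : Set (I → Bool), Q.Countable ∧ Dense Q := cube_separable i i.injective
  obtain ⟨Q, hQ, hQd⟩ := hsep
  have hcl : IsClosed (range g) := by
    rw [← image_univ]
    exact (isCompact_univ.image hg.continuous).isClosed
  have e : (I → Bool) ≃ₜ range g := hg.toHomeomorph
  have hQ' : Dense (e '' Q) := e.surjective.denseRange.dense_image e.continuous hQd
  have hs : TopologicalSpace.SeparableSpace (range g) := ⟨⟨e '' Q, hQ.image e, hQ'⟩⟩
  have hcomp : CompactSpace (range g) := e.compactSpace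
  have hOT := OT_of_extendial (h _ hcl hs) univ isClosed_univ
    ⟨e '' Q, hQ.image e, subset_univ _, by rw [hQ'.closure_eq]⟩
  apply cube_not_OT (I := I)
  intro S hS
  -- transport
  let e2 : (I → Bool) ≃ₜ (univ : Set (range g)) := e.trans (Homeomorph.Set.univ _).symm
  have h1 : OC (e2 '' S) := by
    intro C hC hCc y hy
    have h2 : e2.symm y ∈ closure (e2.symm '' C) := by
      rw [← e2.symm.image_closure]
      exact ⟨y, hy, rfl⟩
    have h3 := hS (e2.symm '' C) (by
      rintro _ ⟨c, hc, rfl⟩
      obtain ⟨d, hd, rfl⟩ := hC hc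
      rwa [e2.symm_apply_apply]) (hCc.image _) h2
    exact ⟨_, h3, e2.apply_symm_apply y⟩
  have h2 := hOT _ h1
  rwa [e2.isClosed_image] at h2

/-- characterizations of metrizability for t-dyadic compact spaces by extenders -/
theorem tfae_ext {X : Type u} [TopologicalSpace X] [CompactSpace X] [T2Space X]
    (hX : TDyadic X) :
    List.TFAE [TopologicalSpace.MetrizableSpace X, LExtendial X, TExtendial X,
      ∀ B : Set X, IsClosed B → TopologicalSpace.SeparableSpace B → TExtendial B,
      ¬ HasCube X] := by
  tfae_have 1 → 2 := fun h A hA => dugundji hA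
  tfae_have 2 → 3 := fun h A hA => by
    obtain ⟨φ, h1, h2, -⟩ := h A hA
    exact ⟨φ, h1, h2⟩
  tfae_have 3 → 4 := fun h B hB _ => extendial_closed h hB
  tfae_have 4 → 5 := not_cube_of_extendial
  tfae_have 5 → 1 := metrizable_or hX
  tfae_finish

end Pool.Agent.Y237.TD
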