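import Pool.Agent.Y237.TD.Main

/-!
# t-dyadic compact spaces: characterizations of metrizability
-/

set_option autoImplicit false

open Set Topology Filter

universe u v

namespace Pool.Agent.Y237.TD

open Pool.Agent.H69R3

/-- The space `X` is t-dyadic: it is homeomorphic to a t-embedded subspace `A` of a dyadic compact
space `D` (a Hausdorff continuous image of a Cantor cube `{0,1}^J`). -/
def TDyadic (X : Type u) [TopologicalSpace X] : Prop :=
  ∃ (J D : Type u) (_ : TopologicalSpace D) (_ : T2Space D) (q : (J → Bool) → D) (A : Set D),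
    Continuous q ∧ Function.Surjective q ∧ Nonempty (X ≃ₜ A) ∧ TEmbedded A

/-- `X` contains a copy of the Cantor cube `{0,1}^ω₁`. -/
def HasCube (X : Type u) [TopologicalSpace X] : Prop :=
  ∃ (I : Type u) (h : (I → Bool) → X), Cardinal.mk I = Cardinal.aleph 1 ∧ IsEmbedding h

/-- t-dyadic spaces which contain no Cantor cube of weight `ω₁` are metrizable -/
theorem metrizable_or {X : Type u} [TopologicalSpace X] [CompactSpace X] [T2Space X]
    (hX : TDyadic X) (hc : ¬ HasCube X) : TopologicalSpace.MetrizableSpace X := by
  classical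
  obtain ⟨J, D, _, _, q, A, hq, hqs, ⟨H⟩, φ, hφ, hφe⟩ := hX
  have hN : ∀ (S : Type u) [Uncountable S] (g : (S → Bool) → X), Continuous g →
      ¬ Function.Injective g := by
    intro S _ g hg hinj
    apply hc
    have h3 : Cardinal.aleph 1 ≤ Cardinal.mk (univ : Set S) := by
      rw [Cardinal.mk_univ, Cardinal.aleph_one_le_iff]
      exact Cardinal.aleph0_lt_mk_iff.2 inferInstance
    obtain ⟨T, -, hT⟩ := Cardinal.le_mk_iff_exists_subset.1 h3
    refine ⟨T, fun d => g (ext T (fun _ => false) d), hT, ?_⟩
    have hcont : Continuous fun d : T → Bool => g (ext T (fun _ => false) d) :=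
      hg.comp (continuous_ext T _)
    refine (hcont.isClosedEmbedding fun d d' h => ?_).isEmbedding
    have h4 := hinj h
    funext s
    have h5 := congrFun h4 s
    rwa [ext_mem s.2, ext_mem s.2] at h5
  let K : C(X, A) := ⟨H, H.continuous⟩
  let pb : Cp X → Cp A := fun f => ⟨fun a => f.1 (H.symm a), f.2.comp H.symm.continuous⟩
  have hpb : Continuous pb := by
    refine Continuous.subtype_mk (continuous_pi fun a => ?_) _
    exact (continuous_apply (H.symm a)).comp continuous_subtype_val
  choose s hs using hqs
  refine main hN (fun d f => (φ (pb f)).1 (q d)) (fun f => (φ (pb f)).2.comp hq)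
    (fun d => (continuous_apply (q d)).comp (continuous_subtype_val.comp (hφ.comp hpb)))
    (fun x => s (H x)) fun f x => ?_
  rw [hs, hφe]
  show f.1 (H.symm (H x)) = f.1 x
  rw [H.symm_apply_apply]

/-- the cube `{0,1}^I`, `I` uncountable, is not countably tight -/
theorem cube_not_tight {I : Type u} [Uncountable I] : ¬ CountablyTight (I → Bool) := by
  classical
  intro h
  have h1 : (fun _ => true : I → Bool) ∈
      closure {d : I → Bool | {i | d i = true}.Countable} := by
    rw [mem_closure_iff]
    intro U hU hm
    obtain ⟨G, hG⟩ := exists_cyl hU hm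
    refine ⟨fun i => decide (i ∈ G), hG _ fun j hj => by simp [hj], ?_⟩
    refine G.countable_toSet.mono fun i hi => ?_
    simpa using hi
  obtain ⟨B, hB, hBc, hcl⟩ := h _ _ h1
  have h2 : (⋃ d ∈ B, {i | d i = true}).Countable := hBc.biUnion fun d hd => hB hd
  obtain ⟨i, hi⟩ : ∃ i, i ∉ ⋃ d ∈ B, {i | d i = true} := by
    by_contra hne
    push Not at hne
    exact Set.not_countable_univ (h2.mono fun i _ => hne i)
  have h3 : closure B ⊆ {d : I → Bool | d i = false} := by
    refine closure_minimal (fun d hd => ?_) (isClosed_eq (continuous_apply i) continuous_const)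
    show d i = false
    by_contra hne
    apply hi
    simp only [mem_iUnion]
    exact ⟨d, hd, by simpa using hne⟩
  have h4 : (true : Bool) = false := h3 hcl
  exact absurd h4 (by decide)

/-- countable tightness passes to spaces which are embedded -/
theorem tight_of_embedding {X Y : Type*} [TopologicalSpace X] [TopologicalSpace Y] {g : X → Y}
    (hg : IsEmbedding g) (h : CountablyTight Y) : CountablyTight X := by
  intro A x hx
  have h1 : g x ∈ closure (g '' A) := by
    rw [hg.closure_eq_preimage_closure_image] at hx
    exact hx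
  obtain ⟨B, hBA, hB, hxB⟩ := h _ _ h1
  refine ⟨g ⁻¹' B, ?_, hB.preimage hg.injective, ?_⟩
  · intro z hz
    obtain ⟨a, ha, hag⟩ := hBA hz
    rwa [← hg.injective hag]
  · rw [hg.closure_eq_preimage_closure_image]
    show g x ∈ closure (g '' (g ⁻¹' B))
    have : g '' (g ⁻¹' B) = B := by
      rw [image_preimage_eq_of_subset]
      intro b hb
      obtain ⟨a, -, hag⟩ := hBA hb
      exact ⟨a, hag⟩
    rwa [this]

/-- sequential spaces are countably tight -/
theorem tight_of_seq {X : Type*} [TopologicalSpace X] [SequentialSpace X] : CountablyTight X := by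
  intro A x hx
  have h1 : IsSeqClosed {y | ∃ B ⊆ A, B.Countable ∧ y ∈ closure B} := by
    intro s y hs hy
    choose B hBA hB hs' using hs
    refine ⟨⋃ n, B n, iUnion_subset hBA, countable_iUnion hB, ?_⟩
    refine isClosed_closure.mem_of_tendsto hy (Eventually.of_forall fun n => ?_)
    exact closure_mono (subset_iUnion B n) (hs' n)
  have h2 := h1.isClosed
  have h3 : A ⊆ {y | ∃ B ⊆ A, B.Countable ∧ y ∈ closure B} := fun a ha =>
    ⟨{a}, by simpa using ha, countable_singleton a, subset_closure rfl⟩
  exact closure_minimal h3 h2 hx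

/-- a space whose closed separable subspaces are countably tight contains no Cantor cube -/
theorem not_cube {X : Type u} [TopologicalSpace X] [T2Space X]
    (h : ∀ B : Set X, IsClosed B → TopologicalSpace.SeparableSpace B → CountablyTight B) :
    ¬ HasCube X := by
  rintro ⟨I, g, hI, hg⟩
  have hcard : Cardinal.aleph0 < Cardinal.mk I := by
    rw [hI]; exact Cardinal.aleph0_lt_aleph_one
  have hunc : Uncountable I := Cardinal.aleph0_lt_mk_iff.1 hcard
  have h4 : Cardinal.lift.{0} (Cardinal.mk I) ≤ Cardinal.lift.{u} (Cardinal.mk (ℕ → Bool)) := by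
    rw [hI]
    simpa using Cardinal.aleph_one_le_continuum
  obtain ⟨i⟩ := Cardinal.lift_mk_le'.1 h4
  have hsep : ∃ Q : Set (I → Bool), Q.Countable ∧ Dense Q := cube_separable i i.injective
  obtain ⟨Q, hQ, hQd⟩ := hsep
  have hcl : IsClosed (range g) := by
    rw [← image_univ]
    exact (isCompact_univ.image hg.continuous).isClosed
  have e : (I → Bool) ≃ₜ range g := hg.toHomeomorph
  have hs : TopologicalSpace.SeparableSpace (range g) := by
    refine ⟨⟨e '' Q, hQ.image e, ?_⟩⟩
    exact e.surjective.denseRange.dense_image e.continuous hQd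
  exact cube_not_tight (tight_of_embedding e.isEmbedding (h _ hcl hs))

/-- t-extral spaces are compact and t-dyadic -/
theorem tdyadic_of_extral {X : Type u} [TopologicalSpace X] [T35Space X] (h : TExtral X) :
    CompactSpace X ∧ TDyadic X := by
  classical
  obtain ⟨hc, κ, e, ψ, he, hψ, hψe⟩ := extral_cube h
  refine ⟨hc, κ × ℕ, κ → unitInterval, inferInstance, inferInstance, ?_⟩
  obtain ⟨b, hb, hbs⟩ := exists_nat_bool_continuous_surjective_of_compact unitInterval
  have hinj : Function.Injective e := by
    intro x x' hxx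
    by_contra hne
    obtain ⟨f, hf⟩ := interp {x, x'} fun y => if y = x then 0 else 1
    have h5 : f.1 x = 0 := by rw [hf x (by simp), if_pos rfl]
    have h6 : f.1 x' = 1 := by rw [hf x' (by simp), if_neg (Ne.symm hne)]
    rw [← hψe, hxx, hψe, h6] at h5
    exact one_ne_zero h5
  have hemb : IsEmbedding e := (he.isClosedEmbedding hinj).isEmbedding
  have H : X ≃ₜ range e := hemb.toHomeomorph
  refine ⟨fun d k => b fun n => d (k, n), range e, ?_, ?_, ⟨hemb.toHomeomorph⟩, ?_⟩
  · refine continuous_pi fun k => hb.comp ?_
    exact continuous_pi fun n => continuous_apply _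
  · intro z
    choose σ hσ using fun k => hbs (z k)
    exact ⟨fun p => σ p.1 p.2, funext fun k => hσ k⟩
  · refine ⟨fun f => ψ ⟨fun x => f.1 ⟨e x, x, rfl⟩, ?_⟩, ?_, ?_⟩
    · exact f.2.comp (Continuous.subtype_mk he _)
    · refine hψ.comp (Continuous.subtype_mk (continuous_pi fun x => ?_) _)
      exact (continuous_apply (⟨e x, x, rfl⟩ : range e)).comp continuous_subtype_val
    · rintro f ⟨_, x, rfl⟩
      exact hψe _ x

/-- characterizations of metrizability for t-dyadic compact spaces -/
theorem tfae {X : Type u} [TopologicalSpace X] [CompactSpace X] [T2Space X] (hX : TDyadic X) :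
    List.TFAE [TopologicalSpace.MetrizableSpace X, SequentialSpace X, CountablyTight X,
      ∀ B : Set X, IsClosed B → TopologicalSpace.SeparableSpace B → CountablyTight B,
      ¬ HasCube X] := by
  tfae_have 1 → 2 := fun h => inferInstance
  tfae_have 2 → 3 := fun h => tight_of_seq
  tfae_have 3 → 4 := fun h B _ _ => tight_of_embedding IsEmbedding.subtypeVal h
  tfae_have 4 → 5 := not_cube
  tfae_have 5 → 1 := metrizable_or hX
  tfae_finish

/-- t-dyadic compact spaces of cardinality less than `2^ω₁` are metrizable -/
theorem small {X : Type u} [TopologicalSpace X] [CompactSpace X] [T2Space X] (hX : TDyadic X)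
    (h : Cardinal.mk X < 2 ^ Cardinal.aleph 1) : TopologicalSpace.MetrizableSpace X := by
  refine metrizable_or hX ?_
  rintro ⟨I, g, hI, hg⟩
  have h1 := Cardinal.mk_le_of_injective hg.injective
  rw [Cardinal.mk_arrow, hI, Cardinal.mk_bool] at h1
  simp only [Cardinal.lift_ofNat, Cardinal.lift_uzero] at h1
  exact absurd h (not_lt.2 h1)

end Pool.Agent.Y237.TD
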