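import Mathlib
import Pool.Agent.H69R3.Core2
import Pool.Agent.H69R3.Extendial

/-!
# t-dyadic compact spaces

A compact space is t-dyadic if it is t-embedded in a continuous image of a Cantor cube. A t-dyadic
compact space which contains no Cantor cube of uncountable weight is metrizable.
-/

set_option autoImplicit false

open Set Topology Filter

universe u v

namespace Pool.Agent.Y237.TD

open Pool.Agent.H69R3
open Pool.Agent.Helper126 (delta_system uncountable_fiber)

/-- functions on a Cantor cube which do not change when a coordinate outside `S` is flipped depend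
only on the coordinates in `S` -/
theorem depends {J : Type v} {g : (J → Bool) → ℝ} (hg : Continuous g) {S : Set J}
    (hS : ∀ β ∉ S, ∀ d, g (fl β d) = g d) {d d' : J → Bool} (hdd : ∀ β ∈ S, d β = d' β) :
    g d = g d' := by
  classical
  have h2 : ∀ G : Finset J, ∀ d1 : J → Bool, (∀ β ∈ S, d1 β = d' β) →
      g (G.piecewise d' d1) = g d1 := by
    intro G
    induction G using Finset.induction_on with
    | empty => intro d1 _; rw [Finset.piecewise_empty]
    | insert a G ha ih =>
      intro d1 hd1
      rw [Finset.piecewise_insert]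
      have h3 : ∀ d2 : J → Bool, (∀ β ∈ S, d2 β = d' β) →
          g (Function.update d2 a (d' a)) = g d2 := by
        intro d2 hd2
        by_cases h4 : d2 a = d' a
        · rw [← h4, Function.update_eq_self]
        · have h5 : a ∉ S := fun h => h4 (hd2 a h)
          have h6 : Function.update d2 a (d' a) = fl a d2 := by
            apply update_eq_fl
            revert h4
            cases d2 a <;> cases d' a <;> simp
          rw [h6]
          exact hS a h5 d2
      rw [h3, ih d1 hd1]
      intro β hβ
      by_cases hβG : β ∈ G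
      · rw [Finset.piecewise_eq_of_mem _ _ _ hβG]
      · rw [Finset.piecewise_eq_of_notMem _ _ _ hβG, hd1 β hβ]
  have h3 : d' ∈ closure {z | g z = g d} := by
    rw [mem_closure_iff]
    intro U hU hd'
    obtain ⟨G, hG⟩ := exists_cyl hU hd'
    refine ⟨G.piecewise d' d, hG _ fun j hj => Finset.piecewise_eq_of_mem _ _ _ hj, ?_⟩
    exact h2 G d hdd
  have h4 : IsClosed {z | g z = g d} := isClosed_eq hg continuous_const
  rw [h4.closure_eq] at h3
  exact h3.symm

/-- Let `Ψ` be a continuous family, indexed by a Cantor cube, of continuous functions on `C_p(X)`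
which contains all the evaluations at the points of `X`, `X` compact. If only countably many
coordinates of the cube are essential, `X` is metrizable. -/
theorem countable_case {X : Type u} [TopologicalSpace X] [CompactSpace X] [T2Space X]
    {J : Type v} (Ψ : (J → Bool) → Cp X → ℝ) (hΨ1 : ∀ f, Continuous fun d => Ψ d f)
    (i : X → J → Bool) (hΨe : ∀ f x, Ψ (i x) f = f.1 x)
    (hc : {β | ∃ f d, Ψ d f ≠ Ψ (fl β d) f}.Countable) : TopologicalSpace.MetrizableSpace X := by
  classical
  set S : Set J := {β | ∃ f d, Ψ d f ≠ Ψ (fl β d) f} with hS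
  have : Countable S := hc.to_subtype
  have hS' : ∀ f, ∀ β ∉ S, ∀ d, Ψ (fl β d) f = Ψ d f := by
    intro f β hβ d
    by_contra h
    exact hβ ⟨f, d, fun h' => h h'.symm⟩
  let G : Cp X → C(S → Bool, ℝ) := fun f =>
    ⟨fun e => Ψ (ext S (fun _ => false) e) f, (hΨ1 f).comp (continuous_ext S _)⟩
  have hG : ∀ f x, G f (fun s => i x s) = f.1 x := by
    intro f x
    rw [← hΨe f x]
    refine depends (hΨ1 f) (hS' f) fun β hβ => ?_
    rw [ext_mem hβ]
  obtain ⟨c, hcc, hcr⟩ : ∃ c : Set (Cp X), c.Countable ∧ ∀ f, ∀ ε : ℝ, 0 < ε →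
      ∃ f' ∈ c, dist (G f) (G f') < ε := by
    have hsep : TopologicalSpace.IsSeparable (range G) := TopologicalSpace.IsSeparable.of_separableSpace _
    obtain ⟨c0, hc0, hc1, hc2⟩ := hsep.exists_countable_dense_subset
    have h3 : ∀ y ∈ c0, ∃ f, G f = y := fun y hy => hc0 hy
    have : Nonempty (Cp X) := ⟨⟨fun _ => 0, continuous_const⟩⟩
    choose! F hF using h3
    refine ⟨F '' c0, hc1.image F, fun f ε hε => ?_⟩
    obtain ⟨y, hy, hyd⟩ := Metric.mem_closure_iff.1 (hc2 ⟨f, rfl⟩) ε hε
    exact ⟨F y, ⟨y, hy, rfl⟩, by rw [hF y hy]; exact hyd⟩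
  have : Countable c := hcc.to_subtype
  let r : X → (c → ℝ) := fun x f => f.1.1 x
  have hr : Continuous r := continuous_pi fun f => f.1.2
  have hri : Function.Injective r := by
    intro x x' hxx
    by_contra hne
    obtain ⟨f, hf⟩ := interp {x, x'} fun y => if y = x then 0 else 1
    have h5 : f.1 x = 0 := by rw [hf x (by simp), if_pos rfl]
    have h6 : f.1 x' = 1 := by rw [hf x' (by simp), if_neg (Ne.symm hne)]
    obtain ⟨f', hf', hd⟩ := hcr f (1 / 2) (by norm_num)
    have h7 : ∀ z, |f.1 z - f'.1 z| < 1 / 2 := by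
      intro z
      rw [← hG f z, ← hG f' z, ← Real.dist_eq]
      exact (ContinuousMap.dist_apply_le_dist _).trans_lt hd
    have h8 : f'.1 x = f'.1 x' := congrFun hxx ⟨f', hf'⟩
    have h9 := h7 x
    have h10 := h7 x'
    rw [h5, abs_lt] at h9
    rw [h6, ← h8, abs_lt] at h10
    linarith [h9.1, h9.2, h10.1, h10.2]
  exact (hr.isClosedEmbedding hri).isEmbedding.metrizableSpace

/-- The main theorem in terms of families of continuous functions on `C_p(X)`. -/
theorem main {X : Type u} [TopologicalSpace X] [CompactSpace X] [T2Space X]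
    (hN : ∀ (S : Type v) [Uncountable S] (g : (S → Bool) → X), Continuous g →
      ¬ Function.Injective g)
    {J : Type v} (Ψ : (J → Bool) → Cp X → ℝ) (hΨ1 : ∀ f, Continuous fun d => Ψ d f)
    (hΨ2 : ∀ d, Continuous (Ψ d)) (i : X → J → Bool) (hΨe : ∀ f x, Ψ (i x) f = f.1 x) :
    TopologicalSpace.MetrizableSpace X := by
  classical
  set S : Set J := {β | ∃ f d, Ψ d f ≠ Ψ (fl β d) f} with hS
  by_cases hc : S.Countable
  · exact countable_case Ψ hΨ1 i hΨe hc
  · exfalso
    have h1 : ∀ β ∈ S, ∃ (pq : ℚ × ℚ) (G : Finset J) (s : J → Bool) (f : Cp X),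
        (∀ d : J → Bool, (∀ j ∈ G, j ≠ β → d j = s j) → d β = false →
          (pq.1 : ℝ) * Ψ d f + pq.2 ≤ 0) ∧
        (∀ d : J → Bool, (∀ j ∈ G, j ≠ β → d j = s j) → d β = true →
          1 ≤ (pq.1 : ℝ) * Ψ d f + pq.2) := by
      rintro β ⟨f, d0, hd0⟩
      set u := Ψ (Function.update d0 β false) f with hu
      set v := Ψ (Function.update d0 β true) f with hv
      have huv : u ≠ v := by
        cases h2 : d0 β with
        | false =>
          have h3 : Function.update d0 β false = d0 := by rw [← h2, Function.update_eq_self]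
          have h4 : Function.update d0 β true = fl β d0 := by
            apply update_eq_fl; rw [h2]; rfl
          rw [hu, hv, h3, h4]
          exact hd0
        | true =>
          have h3 : Function.update d0 β true = d0 := by rw [← h2, Function.update_eq_self]
          have h4 : Function.update d0 β false = fl β d0 := by
            apply update_eq_fl; rw [h2]; rfl
          rw [hu, hv, h3, h4]
          exact hd0.symm
      obtain ⟨p, hp⟩ : ∃ p : ℚ, 1 < (p : ℝ) * (v - u) := by
        rcases lt_or_gt_of_ne huv with h2 | h2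
        · obtain ⟨p, hp⟩ := exists_rat_gt (1 / (v - u))
          refine ⟨p, ?_⟩
          rwa [div_lt_iff₀ (sub_pos.2 h2)] at hp
        · obtain ⟨p, hp⟩ := exists_rat_lt (1 / (v - u))
          refine ⟨p, ?_⟩
          rwa [lt_div_iff_of_neg (sub_neg.2 h2)] at hp
      obtain ⟨q', hq1, hq2⟩ := exists_rat_btwn (show 1 - (p : ℝ) * v < -((p : ℝ) * u) by linarith)
      have hc1 : Continuous fun d => (p : ℝ) * Ψ d f + q' :=
        ((continuous_const.mul (hΨ1 f)).add continuous_const)
      obtain ⟨G1, hG1⟩ := exists_cyl (isOpen_lt hc1 continuous_const)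
        (show Function.update d0 β false ∈ {d | (p : ℝ) * Ψ d f + q' < 0} by
          show (p : ℝ) * u + q' < 0
          linarith)
      obtain ⟨G2, hG2⟩ := exists_cyl (isOpen_lt continuous_const hc1)
        (show Function.update d0 β true ∈ {d | 1 < (p : ℝ) * Ψ d f + q'} by
          show 1 < (p : ℝ) * v + q'
          linarith)
      refine ⟨(p, q'), G1 ∪ G2, d0, f, ?_, ?_⟩
      · intro d hd hdβ
        refine le_of_lt (hG1 d fun j hj => ?_)
        by_cases hjβ : j = β
        · subst hjβ; rw [hdβ, Function.update_self]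
        · rw [Function.update_of_ne hjβ, hd j (Finset.mem_union_left _ hj) hjβ]
      · intro d hd hdβ
        refine le_of_lt (hG2 d fun j hj => ?_)
        by_cases hjβ : j = β
        · subst hjβ; rw [hdβ, Function.update_self]
        · rw [Function.update_of_ne hjβ, hd j (Finset.mem_union_right _ hj) hjβ]
    have : Nonempty (Cp X) := ⟨⟨fun _ => 0, continuous_const⟩⟩
    choose! pq G s f hneg hpos using h1
    obtain ⟨c, hcf⟩ := uncountable_fiber pq S hc
    obtain ⟨S', hS'S, hS', t, ht⟩ := amalg _ hcf G s
    have : Uncountable S' := by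
      rw [← not_countable_iff]
      exact fun h => hS' (Set.countable_coe_iff.1 h)
    refine core2 hN (J := S') (fun e' f' => (c.1 : ℝ) * Ψ (ext S' t e') f' + c.2) ?_ ?_
      (fun β => f β) ?_ ?_
    · intro f'
      exact (continuous_const.mul ((hΨ1 f').comp (continuous_ext S' t))).add continuous_const
    · intro e'
      exact (continuous_const.mul (hΨ2 _)).add continuous_const
    · intro d β hd
      have h2 := hneg β (hS'S β.2).1 (ext S' t d) (by
        intro j hj hjβ
        obtain ⟨h4, h5⟩ := ht β β.2 j hj hjβ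
        rw [ext_not_mem h4, h5]) (by rw [ext_mem β.2]; exact hd)
      rw [(hS'S β.2).2] at h2
      exact h2
    · intro d β hd
      have h2 := hpos β (hS'S β.2).1 (ext S' t d) (by
        intro j hj hjβ
        obtain ⟨h4, h5⟩ := ht β β.2 j hj hjβ
        rw [ext_not_mem h4, h5]) (by rw [ext_mem β.2]; exact hd)
      rw [(hS'S β.2).2] at h2
      exact h2

end Pool.Agent.Y237.TD
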